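import Pool.Agent.H864R3.Main

set_option autoImplicit false

open Set
open Pool.Agent.H864R3

/-- Density of nontrivial stationary nets on every compact smooth surface in a Euclidean space
(with the induced metric): every open set meeting the surface meets the image of a nontrivial
stationary net. -/
theorem Pool.Agent.Results.MP_f059bd_gt.Density.result :
    ∀ (n : ℕ) (S : Set (EuclideanSpace ℝ (Fin n))), IsCompact S → IsSurface S →
      ∀ U : Set (EuclideanSpace ℝ (Fin n)), IsOpen U → (S ∩ U).Nonempty →
        ∃ G : StatNet S, G.Nontrivial ∧ (G.image ∩ U).Nonempty :=
  fun _ S hc hS U hU hne => density S hc hS U hU hne
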